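import Mathlib
import Pool.Agent.Q96.NoBump

/-!
# Spheres of `C[0,1]` admit no blid maps of any smoothness
-/

set_option autoImplicit false

open Filter Topology Set

namespace Pool.Agent.Results.MP_a52dbe_an.NoBlidAtSpheres

/-- the real Banach space `C[0,1]` with the sup norm -/
abbrev X : Type := C(Set.Icc (0 : ℝ) 1, ℝ)

/-- `H` is a `C^q` blid map at `S` for the neighbourhood `U` of `S`: `H` is `C^q`, takes its values
in `U`, and is the identity on some neighbourhood `V ⊆ U` of `S` -/
def IsBlid (q : ℕ∞) (S U : Set X) (H : X → X) : Prop :=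
  ContDiff ℝ q H ∧ (∀ x, H x ∈ U) ∧ ∃ V ∈ 𝓝ˢ S, V ⊆ U ∧ ∀ x ∈ V, H x = x

/-- `S` admits `C^q` blid maps: there is one for every neighbourhood `U` of `S` -/
def AdmitsBlid (q : ℕ∞) (S : Set X) : Prop := ∀ U ∈ 𝓝ˢ S, ∃ H : X → X, IsBlid q S U H

/-- **Negative answer for every `q`.** For no `r > 0` and no `q ∈ {1, 2, …, ∞}` does the sphere of
radius `r` of `C[0,1]` admit `C^q` blid maps. -/
theorem result (r : ℝ) (hr : 0 < r) (q : ℕ∞) (hq : 1 ≤ q) :
    ¬ AdmitsBlid q (Metric.sphere (0 : X) r) := by
  intro h
  have hU : ({0}ᶜ : Set X) ∈ 𝓝ˢ (Metric.sphere (0 : X) r) := by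
    apply IsOpen.mem_nhdsSet isOpen_compl_singleton |>.mpr
    intro x hx
    rw [mem_sphere_zero_iff_norm] at hx
    simp only [mem_compl_iff, mem_singleton_iff]
    rintro rfl
    rw [norm_zero] at hx
    exact hr.ne hx
  obtain ⟨H, hH, hHU, V, hV, hVU, hHV⟩ := h _ hU
  have hHd : Differentiable ℝ H := hH.differentiable (by
    intro h0
    have : q = 0 := by exact_mod_cast h0
    rw [this] at hq
    exact absurd hq (by norm_num))
  apply hHU 0
  rw [mem_singleton_iff]
  ext t
  change (H 0) t = 0
  set g : X → ℝ := fun x => ContinuousMap.evalCLM ℝ t (H x) - ContinuousMap.evalCLM ℝ t x with hg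
  have hgd : Differentiable ℝ g := by
    intro x
    exact ((ContinuousMap.evalCLM ℝ t).differentiableAt.comp x (hHd x)).sub
      (ContinuousMap.evalCLM ℝ t).differentiableAt
  classical
  set b : X → ℝ := fun x => if ‖x‖ < r then g x else 0 with hb
  have hbd : Differentiable ℝ b := by
    intro x
    rcases lt_trichotomy ‖x‖ r with hx | hx | hx
    · have : b =ᶠ[𝓝 x] g := by
        filter_upwards [(isOpen_lt continuous_norm continuous_const).mem_nhds hx] with y hy
        simp only [hb]
        rw [if_pos hy]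
      exact (hgd x).congr_of_eventuallyEq this
    · have hxV : V ∈ 𝓝 x := mem_nhdsSet_iff_forall.mp hV x (mem_sphere_zero_iff_norm.mpr hx)
      have : b =ᶠ[𝓝 x] fun _ => 0 := by
        filter_upwards [hxV] with y hy
        simp only [hb]
        split_ifs
        · simp only [hg]; rw [hHV y hy, sub_self]
        · rfl
      exact (differentiableAt_const (0 : ℝ)).congr_of_eventuallyEq this
    · have : b =ᶠ[𝓝 x] fun _ => 0 := by
        filter_upwards [(isOpen_lt continuous_const continuous_norm).mem_nhds hx] with y hy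
        simp only [hb]
        rw [if_neg (not_lt.mpr (le_of_lt hy))]
      exact (differentiableAt_const (0 : ℝ)).congr_of_eventuallyEq this
  have h0 := Q96.NoBump.no_bump Q96.NoBump.rough_C b hbd r (fun x hx => by
    simp only [hb]; rw [if_neg (not_lt.mpr hx.le)]) 0
  simp only [hb, norm_zero] at h0
  rw [if_pos hr] at h0
  simp only [hg, map_zero, sub_zero] at h0
  exact h0

end Pool.Agent.Results.MP_a52dbe_an.NoBlidAtSpheres
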